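import Pool.Agent.E8helper61.EF.Stm2

/-!
NB: the comparison of binomial coefficients.
-/

set_option autoImplicit false

open Finset

namespace Pool.Agent.E8helper51.EF

open Pool.Agent.E8helper61.EF

lemma sum_le (n k t : ℕ) (h : 9 * 2 ^ k * t + t ≤ n) : ∀ j : ℕ, j ≤ t →
    8 * ∑ m ∈ range j, 2 ^ (k * (t - m)) * n.choose m ≤ 2 ^ (k * (t - j)) * n.choose j := by
  intro j
  induction j with
  | zero => intro _; simp
  | succ j ih =>
    intro hj
    have ih' := ih (by omega)
    rw [sum_range_succ, mul_add]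
    have e1 : k * (t - j) = k + k * (t - (j + 1)) := by
      have : t - j = (t - (j + 1)) + 1 := by omega
      rw [this]; ring
    rw [e1, pow_add] at ih' ⊢
    have h1 : 9 * 2 ^ k * n.choose j ≤ n.choose (j + 1) := by
      have h2 := Nat.choose_succ_right_eq n j
      have h3 : 9 * 2 ^ k * (j + 1) ≤ n - j := by
        have : 9 * 2 ^ k * (j + 1) ≤ 9 * 2 ^ k * t := Nat.mul_le_mul_left _ hj
        omega
      have h4 : 9 * 2 ^ k * n.choose j * (j + 1) ≤ n.choose (j + 1) * (j + 1) := by
        rw [h2]
        calc 9 * 2 ^ k * n.choose j * (j + 1) = n.choose j * (9 * 2 ^ k * (j + 1)) := by ring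
          _ ≤ n.choose j * (n - j) := Nat.mul_le_mul_left _ h3
      exact Nat.le_of_mul_le_mul_right h4 (by omega)
    have h5 : 2 ^ (k * (t - (j + 1))) * (9 * 2 ^ k * n.choose j) ≤
        2 ^ (k * (t - (j + 1))) * n.choose (j + 1) := Nat.mul_le_mul_left _ h1
    have e2 : 2 ^ (k * (t - (j + 1))) * (9 * 2 ^ k * n.choose j) =
        2 ^ k * 2 ^ (k * (t - (j + 1))) * n.choose j +
          8 * (2 ^ k * 2 ^ (k * (t - (j + 1))) * n.choose j) := by ring
    rw [e2] at h5
    exact (add_le_add_left ih' _).trans h5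

lemma shift_le (n d t M : ℕ) (hM : M + 2 * d ≤ n) (ht : 1 ≤ t) : ∀ e : ℕ, e ≤ 2 * d →
    M * n.choose t ≤ M * (n - e).choose t + e * t * n.choose t := by
  intro e
  induction e with
  | zero => intro _; simp
  | succ e ih =>
    intro he
    have ih' := ih (by omega)
    have h1 : M * (n - e).choose t ≤ M * (n - (e + 1)).choose t + t * n.choose t := by
      obtain ⟨s, rfl⟩ : ∃ s, t = s + 1 := ⟨t - 1, by omega⟩
      by_cases hn : n - e = 0
      · have hM0 : M = 0 := by omega
        rw [hM0]; simp
      · obtain ⟨r, hr⟩ : ∃ r, n - e = r + 1 := ⟨n - e - 1, by omega⟩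
        have hr' : n - (e + 1) = r := by omega
        rw [hr', hr, Nat.choose_succ_succ, mul_add]
        have h2 := Nat.add_one_mul_choose_eq r s
        have h3 : (r + 1).choose (s + 1) ≤ n.choose (s + 1) :=
          Nat.choose_le_choose _ (by omega)
        have h4 : M * r.choose s ≤ (s + 1) * n.choose (s + 1) := by
          calc M * r.choose s ≤ (r + 1) * r.choose s := Nat.mul_le_mul_right _ (by omega)
            _ = (r + 1).choose (s + 1) * (s + 1) := h2
            _ ≤ n.choose (s + 1) * (s + 1) := Nat.mul_le_mul_right _ h3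
            _ = (s + 1) * n.choose (s + 1) := mul_comm _ _
        rw [add_comm (M * r.choose s)]
        exact add_le_add_right h4 _
    calc M * n.choose t ≤ M * (n - e).choose t + e * t * n.choose t := ih'
      _ ≤ (M * (n - (e + 1)).choose t + t * n.choose t) + e * t * n.choose t :=
        Nat.add_le_add_right h1 _
      _ = M * (n - (e + 1)).choose t + (e + 1) * t * n.choose t := by ring

theorem nb : NbStatement := by
  intro n k d t ht htd hn
  have hK : 1 ≤ 2 ^ k := Nat.one_le_two_pow
  have hd : 1 ≤ d := by omega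
  obtain ⟨M, hM⟩ : ∃ M, M = n - 2 * d := ⟨_, rfl⟩
  have hexp : 9 * t * (2 ^ k + d) = 9 * 2 ^ k * t + 9 * (t * d) := by ring
  rw [hexp] at hn
  have htd' : t ≤ t * d := Nat.le_mul_of_pos_right _ hd
  have hMn : M + 2 * d ≤ n := by omega
  have hM9 : 9 * (t * d) ≤ M := by omega
  have hMpos : 0 < M := by
    have : 0 < t * d := Nat.mul_pos (by omega) (by omega)
    omega
  have h1 := sum_le n k t (by omega) t le_rfl
  rw [Nat.sub_self, mul_zero, pow_zero, one_mul] at h1
  have h2 := shift_le n d t M hMn ht d (by omega)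
  have h3 := shift_le n d t M hMn ht (2 * d) le_rfl
  have h4 : 8 * n.choose t ≤ 9 * (n - d).choose t := by
    have h5 : 9 * (t * d) * n.choose t ≤ M * n.choose t := Nat.mul_le_mul_right _ hM9
    have h6 : M * (8 * n.choose t) ≤ M * (9 * (n - d).choose t) := by
      nlinarith
    exact Nat.le_of_mul_le_mul_left h6 hMpos
  have h7 : 7 * n.choose t ≤ 9 * (n - 2 * d).choose t := by
    have h5 : 9 * (t * d) * n.choose t ≤ M * n.choose t := Nat.mul_le_mul_right _ hM9
    have h6 : M * (7 * n.choose t) ≤ M * (9 * (n - 2 * d).choose t) := by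
      nlinarith
    exact Nat.le_of_mul_le_mul_left h6 hMpos
  omega

end Pool.Agent.E8helper51.EF
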